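import Mathlib
import Pool.Agent.H.MP_ff06a2_an.A

namespace Pool.Agent.Results.MP_ff06a2_an.NotUnique

open MeasureTheory Set Filter Topology Pool.Agent.H.MP_ff06a2_an

/-- admissible pairs of the dual problem -/
def Admissible {E : Type} [MeasurableSpace E] (ρ μ : Measure E) (c : E → E → ℝ)
    (φ ψ : E → ℝ) : Prop :=
  Integrable φ ρ ∧ Integrable ψ μ ∧ ∀ x y, φ x + ψ y ≤ c x y

/-- optimal pairs of the dual problem -/
def Optimal {E : Type} [MeasurableSpace E] (ρ μ : Measure E) (c : E → E → ℝ)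
    (φ ψ : E → ℝ) : Prop :=
  Admissible ρ μ c φ ψ ∧ ∀ φ' ψ', Admissible ρ μ c φ' ψ' →
    ∫ x, φ' x ∂ρ + ∫ y, ψ' y ∂μ ≤ ∫ x, φ x ∂ρ + ∫ y, ψ y ∂μ

theorem result :
    ∃ (ρ μ : Measure (EuclideanSpace ℝ (Fin 6)))
      (c : EuclideanSpace ℝ (Fin 6) → EuclideanSpace ℝ (Fin 6) → ℝ)
      (a b : EuclideanSpace ℝ (Fin 6) → ℝ),
      IsProbabilityMeasure ρ ∧ IsProbabilityMeasure μ ∧ (∀ x y, c x y = ‖x - y‖ ^ 2) ∧
      Bornology.IsBounded μ.support ∧ ContDiff ℝ 1 (Function.uncurry c) ∧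
      UpperSemicontinuous a ∧ UpperSemicontinuous b ∧ Integrable a ρ ∧ Integrable b μ ∧
      (∀ x y, |c x y| ≤ a x + b y) ∧ IsPathConnected ρ.support ∧
      ∃ φ₀ ψ₀ φ₁ ψ₁, Optimal ρ μ c φ₀ ψ₀ ∧ Optimal ρ μ c φ₁ ψ₁ ∧
        ¬ ∃ l : ℝ, ∀ᵐ x ∂ρ, φ₀ x - φ₁ x = l := by
  obtain ⟨g, hg⟩ : ∃ g : unitInterval → EuclideanSpace ℝ (Fin 6), g = fun t => gam t.1 := ⟨_, rfl⟩
  have gc : Continuous g := by rw [hg]; exact gam_cont.comp continuous_subtype_val
  have gl : ∀ s t : unitInterval, |(s : ℝ) - t| / 4096 ≤ ‖g s - g t‖ ^ 2 := by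
    rw [hg]; exact gam_lower
  have gi : Function.Injective g := by
    intro s t h
    have := gl s t
    rw [h, sub_self, norm_zero] at this
    have h2 : |(s : ℝ) - t| = 0 := le_antisymm (by linarith) (abs_nonneg _)
    exact Subtype.ext (sub_eq_zero.1 (abs_eq_zero.1 h2))
  have ge : MeasurableEmbedding g := (gc.isClosedEmbedding gi).measurableEmbedding
  obtain ⟨ρ, hρ⟩ : ∃ ρ : Measure (EuclideanSpace ℝ (Fin 6)), ρ = volume.map g := ⟨_, rfl⟩
  have hp : IsProbabilityMeasure ρ := by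
    rw [hρ]; exact Measure.isProbabilityMeasure_map ge.measurable.aemeasurable
  have hpos : (volume : Measure unitInterval).IsOpenPosMeasure := by
    refine ⟨fun U hU hne h0 => ?_⟩
    obtain ⟨x, hx⟩ := hne
    have hd : Dense (Ioo (0 : unitInterval) 1) := by
      rw [dense_iff_closure_eq, closure_Ioo zero_ne_one]
      exact eq_univ_of_forall fun y => ⟨y.2.1, y.2.2⟩
    obtain ⟨y, hyU, hy⟩ := hd.inter_open_nonempty U hU ⟨x, hx⟩
    obtain ⟨l, u, hyl, hsub⟩ := (mem_nhds_iff_exists_Ioo_subset' ⟨0, hy.1⟩ ⟨1, hy.2⟩).1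
      (hU.mem_nhds hyU)
    have h1 := measure_mono_null hsub h0
    rw [unitInterval.volume_Ioo, ENNReal.ofReal_eq_zero] at h1
    have h2 : (l : ℝ) < u := hyl.1.trans hyl.2
    linarith
  have hsupp : ρ.support = range g := by
    refine Subset.antisymm (Measure.support_subset_of_isClosed (isCompact_range gc).isClosed ?_) ?_
    · rw [hρ]
      exact ge.ae_map_iff.2 (Eventually.of_forall fun t => ⟨t, rfl⟩)
    · rintro _ ⟨t, rfl⟩
      rw [Measure.mem_support_iff_forall]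
      intro U hU
      rw [hρ, ge.map_apply]
      exact Measure.measure_pos_of_mem_nhds _ (gc.continuousAt hU)
  have hint : ∀ f : EuclideanSpace ℝ (Fin 6) → ℝ, Continuous (f ∘ g) → Integrable f ρ := by
    intro f hf
    rw [hρ, ge.integrable_map_iff]
    exact hf.integrable_of_hasCompactSupport (HasCompactSupport.of_compactSpace _)
  have hle : ∀ φ ψ, Admissible ρ ρ (fun x y => ‖x - y‖ ^ 2) φ ψ →
      ∫ x, φ x ∂ρ + ∫ y, ψ y ∂ρ ≤ 0 := by
    rintro φ ψ ⟨h1, h2, h3⟩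
    rw [← integral_add h1 h2]
    exact integral_nonpos fun x => by simpa using h3 x x
  have hac : Continuous fun x : EuclideanSpace ℝ (Fin 6) => 2 * ‖x‖ ^ 2 := by fun_prop
  let φ : EuclideanSpace ℝ (Fin 6) → ℝ := Function.extend g (fun t => (t : ℝ) / 4096) fun _ => -1
  let ψ : EuclideanSpace ℝ (Fin 6) → ℝ := Function.extend g (fun t => -((t : ℝ) / 4096)) fun _ => -1
  have φg : ∀ t, φ (g t) = (t : ℝ) / 4096 := fun t => gi.extend_apply _ _ t
  have ψg : ∀ t, ψ (g t) = -((t : ℝ) / 4096) := fun t => gi.extend_apply _ _ t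
  have φn : ∀ x, ¬ (∃ t, g t = x) → φ x = -1 := fun x hx => Function.extend_apply' _ _ x hx
  have ψn : ∀ x, ¬ (∃ t, g t = x) → ψ x = -1 := fun x hx => Function.extend_apply' _ _ x hx
  have iφ : Integrable φ ρ := hint _ (by
    rw [show φ ∘ g = fun t : unitInterval => (t : ℝ) / 4096 from funext φg]; fun_prop)
  have iψ : Integrable ψ ρ := hint _ (by
    rw [show ψ ∘ g = fun t : unitInterval => -((t : ℝ) / 4096) from funext ψg]; fun_prop)
  refine ⟨ρ, ρ, fun x y => ‖x - y‖ ^ 2, fun x => 2 * ‖x‖ ^ 2, fun x => 2 * ‖x‖ ^ 2, hp, hp,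
    fun _ _ => rfl, ?_, ?_, hac.upperSemicontinuous, hac.upperSemicontinuous,
    hint _ (hac.comp gc), hint _ (hac.comp gc), fun x y => ?_, ?_, 0, 0, φ, ψ, ⟨?_, ?_⟩,
    ⟨⟨iφ, iψ, fun x y => ?_⟩, ?_⟩, ?_⟩
  · rw [hsupp]; exact (isCompact_range gc).isBounded
  · exact (contDiff_fst.sub contDiff_snd).norm_sq ℝ
  · rw [abs_of_nonneg (by positivity)]
    have := pow_le_pow_left₀ (norm_nonneg _) (norm_sub_le x y) 2
    nlinarith [sq_nonneg (‖x‖ - ‖y‖)]
  · have : PathConnectedSpace unitInterval := isPathConnected_iff_pathConnectedSpace.1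
      ((convex_Icc (0 : ℝ) 1).isPathConnected ⟨0, by norm_num⟩)
    rw [hsupp]; exact isPathConnected_range gc
  · exact ⟨integrable_zero _ _ _, integrable_zero _ _ _, fun x y => by simp⟩
  · intro φ' ψ' h
    simpa using hle φ' ψ' h
  · have hn := sq_nonneg ‖x - y‖
    by_cases hx : ∃ t, g t = x
    · obtain ⟨s, rfl⟩ := hx
      by_cases hy : ∃ t, g t = y
      · obtain ⟨t, rfl⟩ := hy
        rw [φg, ψg]
        linarith [gl s t, le_abs_self ((s : ℝ) - t)]
      · rw [φg, ψn y hy]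
        linarith [s.2.2]
    · rw [φn x hx]
      by_cases hy : ∃ t, g t = y
      · obtain ⟨t, rfl⟩ := hy
        rw [ψg]
        linarith [t.2.1]
      · rw [ψn y hy]
        linarith
  · intro φ' ψ' h
    refine (hle φ' ψ' h).trans (le_of_eq ?_)
    rw [← integral_add iφ iψ, hρ, ge.integral_map]
    simp [φg, ψg]
  · rintro ⟨l, hl⟩
    rw [hρ, ge.ae_map_iff] at hl
    have hs : Set.Subsingleton {t : unitInterval | (0 : ℝ) - (t : ℝ) / 4096 = l} := by
      intro s hs t ht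
      simp only [mem_ofPred_eq] at hs ht
      exact Subtype.ext (by linarith)
    have h0 := measure_eq_zero_iff_ae_notMem.1 (hs.measure_zero (volume : Measure unitInterval))
    obtain ⟨t, h1, h2⟩ := (hl.and h0).exists
    rw [φg] at h1
    exact h2 h1

end Pool.Agent.Results.MP_ff06a2_an.NotUnique
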